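import Mathlib
import Pool.Agent.H207.BT.Stm5
import Pool.Agent.H274.HY211.TG2

/-!
# The periodic point moves holomorphically (helper425, for helper207)
-/

set_option autoImplicit false

open Topology Filter Metric Set

namespace Pool.Agent.H425.BT207

open Pool.Agent.H790R3.RB Pool.Agent.H211.HY
open Pool.Agent.H274.HY211 (iter_deriv fst_hasDerivAt snd_hasDerivAt)

theorem one_ne' (z : ℂ) : ((z, (1 : ℂ)) : ℂ × ℂ) ≠ 0 := by simp [Prod.ext_iff]

theorem N2_pos' {p : ℂ × ℂ} (hp : p ≠ 0) : 0 < N2 p := by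
  unfold N2
  by_cases h1 : p.1 = 0
  · have h2 : p.2 ≠ 0 := fun h2 => hp (Prod.ext h1 h2)
    have := norm_pos_iff.mpr h2
    positivity
  · have := norm_pos_iff.mpr h1
    positivity

theorem N2_smul' (a : ℂ) (p : ℂ × ℂ) : N2 (a • p) = ‖a‖ ^ 2 * N2 p := by
  unfold N2
  simp only [Prod.smul_fst, Prod.smul_snd, smul_eq_mul, norm_mul]
  ring

theorem t_MOT (h : Pool.Agent.H211.HY.S_CHO) : Pool.Agent.H207.BT.S_MOT := by
  intro d k x₀ X ρ ξ n hd hN hρ hX hX0 hn h0 hsd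
  classical
  set Φ : (Fin k → ℂ) × ℂ → ℂ := fun p => cr ((hF (X p.1))^[n] (p.2, 1)) (p.2, 1) with hΦ
  -- regularity
  have hXc : ContDiffAt ℂ 1 X 0 :=
    (Helper540.contDiffOn_of_differentiableOn isOpen_ball hX 1).contDiffAt
      (isOpen_ball.mem_nhds (mem_ball_self hρ))
  have hX1 : ContDiffAt ℂ 1 (fun p : (Fin k → ℂ) × ℂ => X p.1) (0, ξ) :=
    ContDiffAt.comp (0, ξ) (f := fun p : (Fin k → ℂ) × ℂ => p.1) (g := X) hXc contDiffAt_fst
  have hi1 : ContDiffAt ℂ 1 (fun p : (Fin k → ℂ) × ℂ => ((p.2, (1 : ℂ)) : ℂ × ℂ)) (0, ξ) :=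
    contDiffAt_snd.prodMk contDiffAt_const
  have hF1 : ContDiffAt ℂ 1 (fun p : (Fin k → ℂ) × ℂ => (hF (X p.1))^[n] (p.2, 1)) (0, ξ) :=
    ContDiffAt.comp (0, ξ) (f := fun p : (Fin k → ℂ) × ℂ => (X p.1, ((p.2, (1 : ℂ)) : ℂ × ℂ)))
      (g := fun q : CV d × (ℂ × ℂ) => (hF q.1)^[n] q.2)
      (hF_iter_contDiff d n 1).contDiffAt (hX1.prodMk hi1)
  have hΦc : ContDiffAt ℂ 1 Φ (0, ξ) := by
    have e : Φ = fun p => ((hF (X p.1))^[n] (p.2, 1)).1 * 1 -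
        ((hF (X p.1))^[n] (p.2, 1)).2 * p.2 := by
      funext p; simp only [hΦ, cr]
    rw [e]
    exact (hF1.fst.mul contDiffAt_const).sub (hF1.snd.mul contDiffAt_snd)
  have hs := hΦc.hasStrictFDerivAt (by norm_num)
  -- the derivative with respect to the second variable
  have hg : HasDerivAt (fun w : ℂ => ((w, (1 : ℂ)) : ℂ × ℂ)) ((1 : ℂ), (0 : ℂ)) ξ :=
    (hasDerivAt_id ξ).prodMk (hasDerivAt_const ξ (1 : ℂ))
  obtain ⟨D, hD, -⟩ := iter_deriv x₀ hg n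
  set y := (hF x₀)^[n] (ξ, 1) with hy
  have hyne : y ≠ 0 := hN.iter_ne n (one_ne' ξ)
  obtain ⟨a, ha, hae⟩ := (cr_eq_zero_iff hyne (one_ne' ξ)).mp h0
  have hN0 : 0 < N2 (ξ, 1) := N2_pos' (one_ne' ξ)
  -- the multiplier
  have hsp := (h.2.2.2.2 d x₀ hd hN).1 (fun w : ℂ => ((w, (1 : ℂ)) : ℂ × ℂ)) ξ n
    hg.differentiableAt (one_ne' ξ)
  have hsp0 : spd (fun w : ℂ => ((w, (1 : ℂ)) : ℂ × ℂ)) ξ = 1 / N2 (ξ, 1) := by
    unfold spd
    rw [hg.deriv]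
    simp [cr]
  have hsp1 : spd (fun w : ℂ => (hF x₀)^[n] (w, 1)) ξ = ‖cr D y‖ / N2 y := by
    unfold spd
    rw [hD.deriv]
  have hlt : ‖cr D y‖ / N2 y * N2 (ξ, 1) = sdn x₀ n (ξ, 1) := by
    rw [← hsp1, hsp, hsp0]
    field_simp
  have hb : ‖a‖ < ‖cr D (ξ, 1)‖ := by
    have ha' : 0 < ‖a‖ := norm_pos_iff.mpr ha
    have e1 : ‖cr D y‖ / N2 y * N2 (ξ, 1) = ‖cr D (ξ, 1)‖ / ‖a‖ := by
      rw [hae, cr_smul_right, norm_mul, N2_smul']
      field_simp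
    rw [e1] at hlt
    rw [← hlt, lt_div_iff₀ ha', one_mul] at hsd
    exact hsd
  have hcr : cr D (ξ, 1) - y.2 ≠ 0 := by
    intro hz
    have e2 : y.2 = a := by rw [hae]; simp
    rw [e2, sub_eq_zero] at hz
    rw [hz] at hb
    exact lt_irrefl _ hb
  have hpd : HasDerivAt (fun w => Φ (0, w)) (cr D (ξ, 1) - y.2) ξ := by
    have h1 := fst_hasDerivAt hD
    have h2 := snd_hasDerivAt hD
    have h3 := (h1.mul_const (1 : ℂ)).fun_sub (h2.fun_mul (hasDerivAt_id ξ))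
    have h4 : (fun w => Φ (0, w)) = fun w => ((hF x₀)^[n] (w, 1)).1 * 1 -
        ((hF x₀)^[n] (w, 1)).2 * id w := by
      funext w; simp only [hΦ, cr, hX0, id]
    rw [h4]
    refine h3.congr_deriv ?_
    simp only [cr, id, ← hy]
    ring
  have hpf : (fderiv ℂ Φ (0, ξ)) (0, 1) = cr D (ξ, 1) - y.2 := by
    have h1 : HasDerivAt (fun w : ℂ => ((0 : Fin k → ℂ), w)) (0, 1) ξ :=
      (hasDerivAt_const ξ (0 : Fin k → ℂ)).prodMk (hasDerivAt_id ξ)
    have h2 := hs.hasFDerivAt.comp_hasDerivAt ξ h1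
    exact h2.unique hpd
  have hinv : (fderiv ℂ Φ (0, ξ) ∘L .inr ℂ (Fin k → ℂ) ℂ).IsInvertible := by
    refine ⟨ContinuousLinearEquiv.unitsEquivAut ℂ (Units.mk0 _ hcr), ?_⟩
    apply ContinuousLinearMap.ext_ring
    simp [hpf]
  have hone : (1 : WithTop ℕ∞) ≠ 0 := by norm_num
  have hq0 : hΦc.implicitFunction hone hinv 0 = ξ := hΦc.implicitFunction_apply_self hone hinv
  have hqc : ContDiffAt ℂ 1 (hΦc.implicitFunction hone hinv) 0 :=
    hΦc.contDiffAt_implicitFunction hone hinv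
  have hqe := hΦc.eventually_apply_implicitFunction hone hinv
  have hΦ0 : Φ (0, ξ) = 0 := by simp only [hΦ, hX0]; exact h0
  have hqd : ∀ᶠ s in 𝓝 (0 : Fin k → ℂ), DifferentiableAt ℂ (hΦc.implicitFunction hone hinv) s := by
    filter_upwards [hqc.eventually (by simp)] with s hs'
    exact hs'.differentiableAt (by norm_num)
  obtain ⟨r, hr, hrb⟩ := Metric.eventually_nhds_iff_ball.mp (hqe.and hqd)
  refine ⟨min r ρ, lt_min hr hρ, min_le_right _ _, hΦc.implicitFunction hone hinv, ?_, hq0, ?_⟩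
  · intro s hs'
    exact (hrb s (ball_subset_ball (min_le_left _ _) hs')).2.differentiableWithinAt
  · intro s hs'
    have := (hrb s (ball_subset_ball (min_le_left _ _) hs')).1
    rw [hΦ0] at this
    exact this

end Pool.Agent.H425.BT207
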